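import Pool.Agent.Y753.SHR.R20
import Pool.Agent.Y753.SHR.Star
import Pool.Agent.Y901.SHR.Diag

set_option autoImplicit false

/-!
MP_069854_nt. The shifted moments of the problem near the critical line, of every positive real order, off a small set
of large values. Let `δ(T) → 0`, `δ(T) log T → ∞`, `c ≥ 0`, `S` a countable set of reals and `R` a countable set of
positive reals. There are sets `E(T) ⊆ [0, T]` of measure `o(δ^(4+4c) T)`, at every point of which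
`|ζ(1/2 + δ + i(t ± α δ))| > δ^(-2-c)` for some `α ∈ S` and some sign, and measurable determinations `w_T` of `log ζ` on
the line `Re s = 1/2 + δ` such that for all `k ∈ R` with `k ≤ 2` or `k ≥ 2 + 2c` and all `α ∈ S` the mean value of
`exp (k w_T (t + α δ)) conj (exp (k w_T (t - α δ)))` over `[0,T] \ E(T)`, times `(2δ)^(k²)`, tends to
`a(k) (1 + iα)^(-k²)`; in particular this holds for `ζ(1/2 + δ + iαδ + it)^k ζ(1/2 + δ + iαδ - it)^k` for every integer
`k ≥ 1` with `k ≤ 2` or `k ≥ 2 + 2c`. For `k ≤ 2` the integral may be taken over `[0, T]`.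
-/

open Filter Topology MeasureTheory

/-- the arithmetic factor `a(k)`, for an integer `k` the factor of the problem: `Γ(k+m)/(Γ(k) m!) = d_k(p^m)` -/
noncomputable def Pool.Agent.Results.MP_069854_nt.OffSetShifts.ak (k : ℝ) : ℝ :=
  ∏' p : Nat.Primes, ((1 - 1 / (p : ℝ)) ^ (k ^ 2) *
    ∑' m : ℕ, (Real.Gamma (k + m) / (Real.Gamma k * (m.factorial : ℝ))) ^ 2 / (p : ℝ) ^ m)

open Pool.Agent.Results.MP_069854_nt.OffSetShifts in
theorem Pool.Agent.Results.MP_069854_nt.OffSetShifts.result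
    (δ : ℝ → ℝ) (hδ : Tendsto δ atTop (𝓝 0)) (hδL : Tendsto (fun T : ℝ => δ T * Real.log T) atTop atTop)
    (c : ℝ) (hc : 0 ≤ c) (S R : Set ℝ) (hS : S.Countable) (hR : R.Countable) (hR0 : ∀ r ∈ R, 0 < r) :
    ∃ (E : ℝ → Set ℝ) (w : ℝ → ℝ → ℂ), (∀ T, MeasurableSet (E T) ∧ Measurable (w T) ∧ ∀ t ∈ E T, 0 ≤ t ∧ t ≤ T ∧
        ∃ α ∈ S, (δ T) ^ (-(2 + c)) < ‖riemannZeta (1 / 2 + δ T + Complex.I * ((t + α * δ T : ℝ) : ℂ))‖ ∨
          (δ T) ^ (-(2 + c)) < ‖riemannZeta (1 / 2 + δ T + Complex.I * ((t - α * δ T : ℝ) : ℂ))‖) ∧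
      Tendsto (fun T => (volume (E T)).toReal / (T * (δ T) ^ (4 + 4 * c))) atTop (𝓝 0) ∧
      (∀ᶠ T in atTop, ∀ u : ℝ, riemannZeta (1 / 2 + δ T + Complex.I * (u : ℂ)) ≠ 0 →
        Complex.exp (w T u) = riemannZeta (1 / 2 + δ T + Complex.I * (u : ℂ))) ∧
      (∀ k ∈ R, ∀ α ∈ S, 0 < ak k ∧
        ((k ≤ 2 ∨ 2 + 2 * c ≤ k) → Tendsto (fun T : ℝ => (((2 * δ T) ^ (k ^ 2) / T : ℝ) : ℂ) *
          ∫ t in Set.Icc 0 T \ E T, Complex.exp (k * (w T (t + α * δ T) + (starRingEnd ℂ) (w T (t - α * δ T))))) atTop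
          (𝓝 ((ak k : ℂ) * (1 + Complex.I * α) ^ (-((k ^ 2 : ℝ) : ℂ))))) ∧
        (k ≤ 2 → Tendsto (fun T : ℝ => (((2 * δ T) ^ (k ^ 2) / T : ℝ) : ℂ) *
          ∫ t in Set.Icc 0 T, Complex.exp (k * (w T (t + α * δ T) + (starRingEnd ℂ) (w T (t - α * δ T))))) atTop
          (𝓝 ((ak k : ℂ) * (1 + Complex.I * α) ^ (-((k ^ 2 : ℝ) : ℂ)))))) ∧
      ∀ k : ℕ, 0 < k → (k ≤ 2 ∨ 2 + 2 * c ≤ k) → ∀ α ∈ S, Tendsto (fun T : ℝ => (((2 * δ T) ^ (k ^ 2) / T : ℝ) : ℂ) *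
          ∫ t in Set.Icc 0 T \ E T, riemannZeta (1 / 2 + δ T + Complex.I * α * δ T + Complex.I * t) ^ k *
            riemannZeta (1 / 2 + δ T + Complex.I * α * δ T - Complex.I * t) ^ k) atTop
          (𝓝 ((ak k : ℂ) * (1 / (1 + Complex.I * α)) ^ (k ^ 2))) := by
  have e1 : ∀ k : ℝ, 0 < k → ∀ m : ℕ, Real.Gamma (k + m) / (Real.Gamma k * (m.factorial : ℝ)) = Pool.Agent.H306R2.lc k m := by
    intro k hk m
    have hG : Real.Gamma k ≠ 0 := (Real.Gamma_pos_of_pos hk).ne'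
    induction m with
    | zero =>
      unfold Pool.Agent.H306R2.lc
      simp [hG]
    | succ m ih =>
      have h1 : Pool.Agent.H306R2.lc k (m + 1) = Pool.Agent.H306R2.lc k m * ((k + m) / ((m : ℝ) + 1)) := by
        unfold Pool.Agent.H306R2.lc
        rw [Finset.prod_range_succ]
      have hkm : k + (m : ℝ) ≠ 0 := by positivity
      have h2 : Real.Gamma (k + ((m + 1 : ℕ) : ℝ)) = (k + m) * Real.Gamma (k + m) := by
        rw [← Real.Gamma_add_one hkm]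
        congr 1
        push_cast
        ring
      have hf : (m.factorial : ℝ) ≠ 0 := by positivity
      rw [h1, ← ih, h2, Nat.factorial_succ]
      push_cast
      field_simp
  have e3 : ∀ k : ℝ, 0 < k → ak k = Pool.Agent.H306R2.aF k := by
    intro k hk
    unfold ak Pool.Agent.H306R2.aF
    refine tprod_congr fun p => ?_
    simp_rw [e1 k hk, one_div, inv_pow, div_eq_mul_inv]
  -- the integers are added to the exponents
  have hR' : (R ∪ Set.range fun m : ℕ => (m : ℝ) + 1).Countable := hR.union (Set.countable_range _)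
  have hR0' : ∀ r ∈ R ∪ Set.range (fun m : ℕ => (m : ℝ) + 1), 0 < r := by
    intro r hr
    rcases hr with h | ⟨m, rfl⟩
    · exact hR0 r h
    · positivity
  obtain ⟨E, w, hE, hvol, hw, hm0⟩ := Pool.Agent.Y753.SHR.mixed_small Pool.Agent.Y901.SHR.done Pool.Agent.Y753.SHR.star hδ hδL hc
    (S := S ∪ (fun x => -x) '' S) (hS.union (hS.image _)) hR' hR0'
  have hneg : ∀ α ∈ S, -α ∈ S ∪ (fun x => -x) '' S := fun α hα => Or.inr ⟨α, hα, rfl⟩
  have e4 : ∀ (T t : ℝ), (1 / 2 + δ T + (t : ℂ) * Complex.I : ℂ) = 1 / 2 + δ T + Complex.I * (t : ℂ) := fun T t => by ring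
  have e5 : ∀ (T t α k : ℝ), Pool.Agent.Y753.SHR.zr (w T) (δ T) (fun _ : Fin 1 => k) (fun _ => α) t *
      (starRingEnd ℂ) (Pool.Agent.Y753.SHR.zr (w T) (δ T) (fun _ : Fin 1 => k) (fun _ => -α) t) =
      Complex.exp (k * (w T (t + α * δ T) + (starRingEnd ℂ) (w T (t - α * δ T)))) := by
    intro T t α k
    unfold Pool.Agent.Y753.SHR.zr
    rw [Fin.prod_univ_one, Fin.prod_univ_one, ← Complex.exp_conj, ← Complex.exp_add]
    congr 1
    have e2 : t + -α * δ T = t - α * δ T := by ring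
    rw [e2, map_mul, Complex.conj_ofReal]
    ring
  have hm : ∀ k ∈ R ∪ Set.range (fun m : ℕ => (m : ℝ) + 1), ∀ α ∈ S,
      ((k ≤ 2 ∨ 2 + 2 * c ≤ k) → Tendsto (fun T : ℝ => (((2 * δ T) ^ (k ^ 2) / T : ℝ) : ℂ) *
          ∫ t in Set.Icc 0 T \ E T, Complex.exp (k * (w T (t + α * δ T) + (starRingEnd ℂ) (w T (t - α * δ T))))) atTop
          (𝓝 ((Pool.Agent.H306R2.aF k : ℂ) * (1 + Complex.I * α) ^ (-((k ^ 2 : ℝ) : ℂ))))) ∧
        (k ≤ 2 → Tendsto (fun T : ℝ => (((2 * δ T) ^ (k ^ 2) / T : ℝ) : ℂ) *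
          ∫ t in Set.Icc 0 T, Complex.exp (k * (w T (t + α * δ T) + (starRingEnd ℂ) (w T (t - α * δ T))))) atTop
          (𝓝 ((Pool.Agent.H306R2.aF k : ℂ) * (1 + Complex.I * α) ^ (-((k ^ 2 : ℝ) : ℂ))))) := by
    intro k hk α hα
    obtain ⟨h1, h2⟩ := hm0 1 1 (fun _ => k) (fun _ => α) (fun _ => k) (fun _ => -α) k le_rfl le_rfl (by simp) (by simp)
      (fun _ => hk) (fun _ => Or.inl hα) (fun _ => hk) (fun _ => hneg α hα)
    simp_rw [e5] at h1 h2
    rw [Fin.prod_univ_one, Fin.prod_univ_one] at h1 h2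
    have e3 : (1 + Complex.I * ((α - -α : ℝ) : ℂ) / 2) ^ (-((k * k : ℝ) : ℂ)) = (1 + Complex.I * α) ^ (-((k ^ 2 : ℝ) : ℂ)) := by
      have e4 : (1 + Complex.I * ((α - -α : ℝ) : ℂ) / 2) = 1 + Complex.I * α := by push_cast; ring
      rw [e4, sq]
    rw [e3] at h1 h2
    refine ⟨fun h => h1 ?_, h2⟩
    rcases h with h | h
    · left; exact h
    · right; linarith
  refine ⟨E, w, fun T => ⟨(hE T).1, (hE T).2.2.1, fun t ht => ⟨((hE T).2.1 ht).1, ((hE T).2.1 ht).2, ?_⟩⟩, hvol, ?_, ?_, ?_⟩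
  · obtain ⟨a, ha, h1⟩ := (hE T).2.2.2 t ht
    unfold Pool.Agent.Y753.SHR.za at h1
    rw [e4] at h1
    rcases ha with ha | ⟨α, hα, rfl⟩
    · exact ⟨a, ha, Or.inl h1⟩
    · refine ⟨α, hα, Or.inr ?_⟩
      have e6 : t + -α * δ T = t - α * δ T := by ring
      simp only [e6] at h1
      exact h1
  · filter_upwards [hw] with T hT u hu
    rw [← e4] at hu ⊢
    exact hT u hu
  · intro k hk α hα
    rw [e3 k (hR0 k hk)]
    exact ⟨Pool.Agent.H306R2.aF_pos (hR0 k hk), (hm k (Or.inl hk) α hα).1, (hm k (Or.inl hk) α hα).2⟩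
  · intro k hk hcase α hα
    have hk0 : (0:ℝ) < k := by exact_mod_cast hk
    rw [e3 k hk0]
    have hkR : (k:ℝ) ∈ R ∪ Set.range (fun m : ℕ => (m : ℝ) + 1) := by
      refine Or.inr ⟨k - 1, ?_⟩
      simp only
      have : ((k - 1 : ℕ) : ℝ) = (k:ℝ) - 1 := by
        rw [Nat.cast_sub hk]
        simp
      rw [this]
      ring
    have h1 := (hm k hkR α hα).1 (by
      rcases hcase with h | h
      · left; exact_mod_cast h
      · right; exact h)
    have e7 : (1 + Complex.I * α) ^ (-(((k:ℝ) ^ 2 : ℝ) : ℂ)) = (1 / (1 + Complex.I * α)) ^ (k ^ 2) := by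
      rw [Complex.cpow_neg]
      have : (((k:ℝ) ^ 2 : ℝ) : ℂ) = ((k ^ 2 : ℕ) : ℂ) := by push_cast; rfl
      rw [this, Complex.cpow_natCast, one_div, inv_pow]
    rw [e7] at h1
    refine h1.congr' ?_
    filter_upwards [hw] with T hT
    have e8 : (2 * δ T) ^ ((k:ℝ) ^ 2) = (2 * δ T) ^ (k ^ 2) := by
      rw [← Nat.cast_pow, Real.rpow_natCast]
    rw [e8]
    congr 1
    refine integral_congr_ae ?_
    filter_upwards [ae_restrict_of_ae (Pool.Agent.Y753.SHR.zeros_ae (δ T) (α * δ T)),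
      ae_restrict_of_ae (Pool.Agent.Y753.SHR.zeros_ae (δ T) (-(α * δ T)))] with t t1 t2
    have e9 : t + -(α * δ T) = t - α * δ T := by ring
    rw [e9] at t2
    have h2 := hT _ t1
    have h3 := hT _ t2
    have e10 : Complex.exp (((k:ℝ):ℂ) * (w T (t + α * δ T) + (starRingEnd ℂ) (w T (t - α * δ T)))) =
        Complex.exp (w T (t + α * δ T)) ^ k * (starRingEnd ℂ) (Complex.exp (w T (t - α * δ T))) ^ k := by
      rw [← Complex.exp_conj, ← mul_pow, ← Complex.exp_add, ← Complex.exp_nat_mul]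
      congr 1
    rw [e10, h2, h3, ← riemannZeta_conj]
    congr 3
    · push_cast; ring
    · simp only [map_add, map_mul, Complex.conj_ofReal, Complex.conj_I, map_div₀, map_one, map_ofNat]
      push_cast; ring
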