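import Pool.Agent.Y746.CS.Fin2

/-!
# Truncated shifted moments with real exponents near the critical line

For real exponents `β_1, …, β_r` of any sign and real shifts `a_1, …, a_r` let

`F(t) = ∏_j |ζ(1/2 + δ + i (t + a_j))|^(β_j)`.

For `r = 2`, `β_1 = β_2 = k`, `a_1 = α / log T`, `a_2 = -α / log T` and `δ = 0` this is the absolute
value of the integrand of the shifted moment `Q_k(α, T)`.

Let `d_y` be the generalised divisor function, `∑ d_y(n) n^(-s) = ζ(s)^y`, and let `τ(n)` be the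
Dirichlet convolution of the functions `n ↦ d_(β_j/2)(n) n^(-i a_j)`, so that formally
`∏_j ζ(s + i a_j)^(β_j / 2) = ∑ τ(n) n^(-s)`.

Unconditionally, for all real exponents `|β_j| ≤ m` and all shifts `|a_j| ≤ T`, uniformly in
`C loglog T / log T ≤ δ ≤ 1/16` and in the truncation `(log T)^A ≤ V ≤ T^(cδ)`, the mean over
`0 ≤ t ≤ T` of `F(t)`, with each `|ζ|` truncated to `[1/V, V]`, is
`∑ |τ(n)|^2 n^(-1-2δ) + O((log T)^(-B))`.
-/

set_option autoImplicit false

namespace Pool.Agent.Results.MP_069854_nt.RealExponentShifts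

open MeasureTheory Finset

noncomputable section

/-- The point `1/2 + δ + i t`. -/
def pt (δ t : ℝ) : ℂ := ((1 / 2 + δ : ℝ) : ℂ) + (t : ℂ) * Complex.I

/-- The generalised divisor function `d_y`: multiplicative, with
`d_y(p^m) = y (y + 1) ⋯ (y + m - 1) / m!`, and `d_y(0) = 0`. -/
def dy (y : ℝ) (n : ℕ) : ℝ :=
  if n = 0 then 0 else n.factorization.prod fun _ m => (∏ i ∈ range m, (y + i)) / m.factorial

/-- The function `n ↦ d_y(n) n^(-i c)`. -/
def twist (y c : ℝ) : ArithmeticFunction ℂ :=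
  ⟨fun n => (dy y n : ℂ) * (n : ℂ) ^ (-((c : ℂ) * Complex.I)), by simp [dy]⟩

/-- The Dirichlet convolution `τ` of the functions `n ↦ d_(β_j/2)(n) n^(-i a_j)`. -/
def tau {r : ℕ} (β a : Fin r → ℝ) : ArithmeticFunction ℂ := ∏ j, twist (β j / 2) (a j)

/-- The series `∑ |τ(n)|^2 n^(-1-2δ)`. -/
def diag (δ : ℝ) {r : ℕ} (β a : Fin r → ℝ) : ℝ := ∑' n : ℕ, ‖tau β a n‖ ^ 2 * (n : ℝ) ^ (-1 - 2 * δ)

/-- The value of `v` truncated to `[1/V, V]`. -/
def cut (V v : ℝ) : ℝ := max V⁻¹ (min v V)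

/-- Truncated shifted moments with arbitrary real exponents near the critical line. -/
theorem result : ∀ m r : ℕ, ∃ c : ℝ, 0 < c ∧ ∀ B : ℝ, ∃ A C T₀ : ℝ, 0 < C ∧ ∀ T : ℝ, T₀ ≤ T →
    ∀ δ : ℝ, C * Real.log (Real.log T) / Real.log T ≤ δ → δ ≤ 1 / 16 →
    ∀ V : ℝ, Real.log T ^ A ≤ V → V ≤ T ^ (c * δ) →
    ∀ β a : Fin r → ℝ, (∀ j, |β j| ≤ m) → (∀ j, |a j| ≤ T) →
    |1 / T * (∫ t in (0 : ℝ)..T, ∏ j, cut V ‖riemannZeta (pt δ (t + a j))‖ ^ β j) - diag δ β a| ≤
      Real.log T ^ (-B) := by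
  intro m r
  obtain ⟨c, hc, h⟩ := Pool.Agent.Y746.CS.rx m r
  refine ⟨c, hc, fun B => ?_⟩
  obtain ⟨B', hB'⟩ := exists_nat_ge B
  obtain ⟨A, C, T₀, hC, h2⟩ := h B'
  refine ⟨(A : ℝ), C, max T₀ 4, hC, fun T hT δ hδ hδ1 V hV1 hV2 β a hβ ha => ?_⟩
  have hT4 : 4 ≤ T := (le_max_right _ _).trans hT
  have hTp : 0 < T := by linarith
  have hL1 : 1 ≤ Real.log T := by
    rw [Real.le_log_iff_exp_le hTp]
    linarith [Real.exp_one_lt_d9]
  have hL0 : 0 < Real.log T := by linarith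
  rw [Real.rpow_natCast] at hV1
  have g := h2 T ((le_max_left _ _).trans hT) δ hδ hδ1 V hV1 hV2 (fun j => β j / 2) a (fun j => by
    rw [abs_div, abs_two]
    have h3 := hβ j
    have h4 := abs_nonneg (β j)
    linarith) ha
  have hpow : 1 / Real.log T ^ B' ≤ Real.log T ^ (-B) := by
    rw [Real.rpow_neg hL0.le, one_div]
    refine inv_anti₀ (Real.rpow_pos_of_pos hL0 _) ?_
    rw [← Real.rpow_natCast]
    exact Real.rpow_le_rpow_of_exponent_le hL1 hB'
  have hdy : ∀ y : ℝ, ∀ n : ℕ, Pool.Agent.H306R2.dv y n = dy y n := by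
    intro y n
    unfold Pool.Agent.H306R2.dv dy
    have e : ∀ e : ℕ, Pool.Agent.H306R2.lc y e = (∏ i ∈ range e, (y + i)) / e.factorial := by
      intro e
      unfold Pool.Agent.H306R2.lc
      rw [prod_div_distrib]
      congr 1
      rw [← prod_range_add_one_eq_factorial]
      push_cast
      rfl
    simp_rw [e]
  have htau : Pool.Agent.Y746.CS.Ty (fun j => β j / 2) a = tau β a := by
    unfold Pool.Agent.Y746.CS.Ty tau
    refine prod_congr rfl fun j _ => ?_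
    ext n
    show (Pool.Agent.H306R2.dv (β j / 2) n : ℂ) * (n : ℂ) ^ (-((a j : ℂ) * Complex.I)) =
      (dy (β j / 2) n : ℂ) * (n : ℂ) ^ (-((a j : ℂ) * Complex.I))
    rw [hdy]
  have hdiag : ∑' n : ℕ, ‖Pool.Agent.Y746.CS.Ty (fun j => β j / 2) a n‖ ^ 2 * (n : ℝ) ^ (-(2 * (1 / 2 + δ))) =
      diag δ β a := by
    unfold diag
    rw [htau]
    refine tsum_congr fun n => ?_
    congr 2
    ring
  have hint : ∫ t in (0 : ℝ)..T, ∏ j, Pool.Agent.Y746.OA.clip V
        ‖riemannZeta (Pool.Agent.Y746.OA.sp δ (t + a j))‖ ^ (2 * (β j / 2)) =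
      ∫ t in (0 : ℝ)..T, ∏ j, cut V ‖riemannZeta (pt δ (t + a j))‖ ^ β j := by
    congr 1
    funext t
    refine prod_congr rfl fun j _ => ?_
    have e : 2 * (β j / 2) = β j := by ring
    rw [e]
    rfl
  rw [hdiag, hint] at g
  refine le_trans ?_ hpow
  have e : ∀ I S : ℝ, 1 / T * I - S = 1 / T * (I - T * S) := by
    intro I S; field_simp
  rw [e, abs_mul, abs_of_pos (by positivity : 0 < 1 / T)]
  calc 1 / T * _ ≤ 1 / T * (T / Real.log T ^ B') := mul_le_mul_of_nonneg_left g (by positivity)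
    _ = 1 / Real.log T ^ B' := by field_simp

end

end Pool.Agent.Results.MP_069854_nt.RealExponentShifts
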